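import Pool.Agent.Q99.FAL.Stm4

/-!
Project FAL of helper99: the net of a diagram (job FAL-GD), by helper224
-/

set_option autoImplicit false

namespace Pool.Agent.Q224.FAL

open Finset Filter Topology
open Pool.Agent.W715.VC (rt)
open Pool.Agent.W709.QAT (Piece run)
open Pool.Agent.Q191.LB (sg)
open Pool.Agent.Q99.FAL

/-! ### solutions depend on the corners only -/

theorem n12' {R : Type} [CommRing R] (x : Fin 6 → R) :
    n1 x + n2 x = cor x 0 + cor x 1 + cor x 2 + cor x 3 := by
  simp only [n1, n2, cor, Matrix.cons_val_zero, Matrix.cons_val_one, Matrix.cons_val]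
  ring

theorem Sol_cor {R : Type} [CommRing R] : ∀ (D : List Pc) (a a' : Fin D.length → Fin 6 → R)
    (G : List R) (u : R), (∀ k, cor (a k) = cor (a' k)) → Sol D a G u → Sol D a' G u
  | [], _, _, _, _, _, h => h
  | P :: D, a, a', G, u, hc, h => by
    obtain ⟨h1, h2, h3⟩ := h
    have h0 : cor (a (0 : Fin (D.length + 1))) = cor (a' (0 : Fin (D.length + 1))) := hc _
    refine ⟨?_, ?_, ?_⟩
    · have e1 := n12' (a (0 : Fin (D.length + 1)))
      have e2 := n12' (a' (0 : Fin (D.length + 1)))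
      rw [h0] at e1
      rw [e2, ← e1]
      exact h1
    · rw [← h0]; exact h2
    · rw [← h0]
      exact Sol_cor D _ _ _ u (fun k => hc k.succ) h3

/-! ### outer corners -/

theorem Val_odd : ∀ (D : List Pc) (n : ℕ), Val D n → n % 2 = 1
  | [], n, h => by
    have h' : n = 1 := h
    rw [h']
  | P :: D, n, h => by
    obtain ⟨h1, h2⟩ := h
    have h3 := Val_odd D _ h2
    rcases P with ⟨T, p, σ, m⟩
    simp only at h1 h3
    cases T <;> simp only [up, wd] at h1 h3 <;> omega

theorem Out_lr : ∀ (D : List Pc) (n : ℕ), Val D n → ∀ (k : Fin D.length), ∃ (T : Ty),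
    (∀ j, Out D n k j → j = lc T ∨ j = rc T) ∧
    (T = .V → ¬ (Out D n k 1 ∧ Out D n k 3))
  | [], _, _, k => k.elim0
  | P :: D, n, h, k => by
    have hodd := Val_odd (P :: D) n h
    obtain ⟨h1, h2⟩ := h
    revert k
    intro k
    refine Fin.cases ?_ (fun k' => ?_) k
    · refine ⟨P.ty, ?_, ?_⟩
      · intro j hj
        have hj' : (P.p = 0 ∧ j = lc P.ty) ∨ (P.p + wd P.ty = n ∧ j = rc P.ty) := hj
        rcases hj' with h | h
        · exact Or.inl h.2
        · exact Or.inr h.2
      · rintro hT ⟨ha, hb⟩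
        have ha' : (P.p = 0 ∧ (1 : Fin 4) = lc P.ty) ∨ (P.p + wd P.ty = n ∧ (1 : Fin 4) = rc P.ty) :=
          ha
        have hb' : (P.p = 0 ∧ (3 : Fin 4) = lc P.ty) ∨ (P.p + wd P.ty = n ∧ (3 : Fin 4) = rc P.ty) :=
          hb
        rw [hT] at ha' hb'
        have e1 : ¬ (1 : Fin 4) = lc .V := by decide
        have e2 : ¬ (3 : Fin 4) = rc .V := by decide
        rcases ha' with h | h
        · exact e1 h.2
        · rcases hb' with h' | h'
          · have e3 : wd .V = 2 := rfl
            rw [e3] at h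
            omega
          · exact e2 h'.2
    · exact Out_lr D _ h2 k'

theorem Out_13 {D : List Pc} {n : ℕ} (h : Val D n) (k : Fin D.length) :
    ¬ (Out D n k 1 ∧ Out D n k 3) := by
  rintro ⟨h1, h3⟩
  obtain ⟨T, hT1, hT2⟩ := Out_lr D n h k
  have a1 := hT1 1 h1
  have a3 := hT1 3 h3
  cases T
  · exact hT2 rfl ⟨h1, h3⟩
  all_goals revert a1 a3; decide

theorem Out_02 {D : List Pc} {n : ℕ} (h : Val D n) (k : Fin D.length) :
    ¬ (Out D n k 0 ∧ Out D n k 2 ∧ (Out D n k 1 ∨ Out D n k 3)) := by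
  rintro ⟨h0, h2, h13⟩
  obtain ⟨T, hT1, _⟩ := Out_lr D n h k
  have a0 := hT1 0 h0
  have a2 := hT1 2 h2
  rcases h13 with h1 | h3
  · have a1 := hT1 1 h1
    cases T <;> revert a0 a2 a1 <;> decide
  · have a3 := hT1 3 h3
    cases T <;> revert a0 a2 a3 <;> decide

/-! ### the net -/

theorem sol_add {R : Type} [CommRing R] (hSO : S_SO) {D : List Pc}
    {a a' : Fin D.length → Fin 6 → R} {u u' : R} (h : Sol D a [0, 0] u)
    (h' : Sol D a' [0, 0] u') : Sol D (a + a') [0, 0] (u + u') := by
  have := hSO.2.1 R D a a' [0, 0] [0, 0] u u' rfl h h'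
  simpa using this

theorem sol_smul {R : Type} [CommRing R] (hSO : S_SO) {D : List Pc}
    {a : Fin D.length → Fin 6 → R} {u : R} (r : R) (h : Sol D a [0, 0] u) :
    Sol D (r • a) [0, 0] (r * u) := by
  have := hSO.2.2.1 R D a [0, 0] u r h
  simpa using this

theorem sol_cast (hSO : S_SO) {D : List Pc} {a : Fin D.length → Fin 6 → ℤ} {u : ℤ}
    (h : Sol D a [0, 0] u) : Sol D (toR a) [0, 0] (u : ℝ) := by
  have := hSO.2.2.2.1 ℤ ℝ (Int.castAddHom ℝ) D a [0, 0] u h
  have e : toR a = fun k i => (Int.castAddHom ℝ) (a k i) := rfl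
  rw [e]
  simpa using this

/-- the lattice of a diagram -/
def lat (hSO : S_SO) (D : List Pc) (a0 : Fin D.length → Fin 6 → ℤ) (h0 : Sol D a0 [0, 0] 1) :
    Submodule ℤ (Fin D.length → Fin 6 → ℤ) where
  carrier := {δ | Sol D δ [0, 0] 0 ∧ ∀ k i, Out D 1 k (c6 i) → δ k i = 0}
  zero_mem' := by
    refine ⟨?_, fun _ _ _ => rfl⟩
    have := sol_smul hSO 0 h0
    simpa using this
  add_mem' := by
    rintro a b ⟨ha, ha'⟩ ⟨hb, hb'⟩
    refine ⟨by simpa using sol_add hSO ha hb, fun k i h => ?_⟩
    rw [Pi.add_apply, Pi.add_apply, ha' k i h, hb' k i h, add_zero]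
  smul_mem' := by
    rintro r a ⟨ha, ha'⟩
    refine ⟨by simpa using sol_smul hSO r ha, fun k i h => ?_⟩
    rw [Pi.smul_apply, Pi.smul_apply, ha' k i h, smul_zero]

theorem eij_cor {c : ℕ} (b : Fin c) : (∀ k, cor (eij b 1 4 k) = 0) ∧
    ∀ k, cor (eij b 2 5 k) = 0 := by
  constructor
  · intro k
    by_cases hk : k = b
    · funext j
      simp only [cor, eij, hk, if_true]
      fin_cases j <;> decide
    · funext j
      simp only [cor, eij, hk, if_false]
      fin_cases j <;> rfl
  · intro k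
    by_cases hk : k = b
    · funext j
      simp only [cor, eij, hk, if_true]
      fin_cases j <;> decide
    · funext j
      simp only [cor, eij, hk, if_false]
      fin_cases j <;> rfl

theorem task_GD : S_GD := by
  classical
  intro hSO hOZ hSUR hNC hSP hDIM hCN hUNR D hV hP hD p hp
  -- the point
  have hncl : (D.map fun P => ncl P.ty).sum = D.length := by
    have := hNC.1 D 1 hV
    omega
  obtain ⟨a0, o0, s0, c0, g0⟩ := hSUR ℤ D 1 hV hP hD [0, 0] rfl rfl rfl (fun _ => 1)
    (List.replicate D.length 1) (by rw [List.length_replicate, hncl]) (by simp)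
  have h0 : Sol D a0 [0, 0] 1 := by
    rw [hSO.1 ℤ D a0 [0, 0] 1]
    refine ⟨s0, ?_, g0⟩
    intro c hc
    rw [c0] at hc
    exact List.eq_of_mem_replicate hc
  set L := lat hSO D a0 h0 with hL
  have hlat : IsLat D L := fun δ => Iff.rfl
  let X : Net D.length := ⟨L, a0⟩
  -- the real span
  have hspan : ∀ x ∈ X.LR, Sol D x [0, 0] 0 ∧ ∀ k i, Out D 1 k (c6 i) → x k i = 0 := by
    intro x hx
    refine Submodule.span_induction (p := fun x _ => Sol D x [0, 0] 0 ∧
      ∀ k i, Out D 1 k (c6 i) → x k i = 0) ?_ ?_ ?_ ?_ hx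
    · rintro _ ⟨δ, hδ, rfl⟩
      have hδ' : Sol D δ [0, 0] 0 ∧ ∀ k i, Out D 1 k (c6 i) → δ k i = 0 := hδ
      refine ⟨by simpa using sol_cast hSO hδ'.1, fun k i h => ?_⟩
      show ((δ k i : ℤ) : ℝ) = 0
      rw [hδ'.2 k i h, Int.cast_zero]
    · refine ⟨?_, fun _ _ _ => rfl⟩
      have := sol_smul hSO 0 (sol_cast hSO h0)
      simpa using this
    · rintro x y _ _ ⟨hx, hx'⟩ ⟨hy, hy'⟩
      refine ⟨by simpa using sol_add hSO hx hy, fun k i h => ?_⟩
      rw [Pi.add_apply, Pi.add_apply, hx' k i h, hy' k i h, add_zero]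
    · rintro r x _ ⟨hx, hx'⟩
      refine ⟨by simpa using sol_smul hSO r hx, fun k i h => ?_⟩
      rw [Pi.smul_apply, Pi.smul_apply, hx' k i h, smul_zero]
  have h0R : Sol D (toR a0) [0, 0] (1 : ℝ) := by simpa using sol_cast hSO h0
  have hnn : ∀ {a : Fin D.length → Fin 6 → ℝ} {u : ℝ}, Sol D a [0, 0] u → (∀ k i, 0 ≤ a k i) →
      ∀ k i, Out D 1 k (c6 i) → a k i = 0 := by
    intro a u ha hn
    exact hOZ.1 D 1 hV a [0, 0] u rfl (by simp) hn ha
  -- the angle structures
  have hAng : X.Ang = AS D := by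
    ext a
    constructor
    · rintro ⟨h1, h2, h3⟩
      refine ⟨?_, fun k => (h3 k).1, h2⟩
      have h4 := sol_add hSO (hspan _ h1).1 h0R
      have e : a - toR X.a0 + toR a0 = a := by
        show a - toR a0 + toR a0 = a
        exact sub_add_cancel _ _
      rw [e, zero_add] at h4
      exact h4
    · rintro ⟨h1, h2, h3⟩
      refine ⟨?_, h3, fun b => ⟨h2 b, ?_⟩⟩
      · show a - toR a0 ∈ Submodule.span ℝ (toR '' (L : Set _))
        refine hSP hSO D L hlat _ ?_ ?_
        · have h4 := sol_add hSO h1 (sol_smul hSO (-1) h0R)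
          have e : a + (-1 : ℝ) • toR a0 = a - toR a0 := by
            rw [neg_one_smul, sub_eq_add_neg]
          rw [e] at h4
          simpa using h4
        · intro k i h
          rw [Pi.sub_apply, Pi.sub_apply, hnn h1 h3 k i h]
          show 0 - ((a0 k i : ℤ) : ℝ) = 0
          rw [o0 k i h]
          simp
      · have h4 := ((hSO.1 ℝ D a [0, 0] 1).mp h1).1 b
        have h5 := h2 b
        linarith
  have hpz : ∀ b i, p b i = 0 ↔ Out D 1 b (c6 i) := by
    intro b i
    constructor
    · intro h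
      by_contra hcon
      have := hp.pos b i hcon
      linarith
    · exact hnn hp.sol hp.nonneg b i
  have hpAS : p ∈ AS D := ⟨hp.sol, hp.half, hp.nonneg⟩
  have hzero : Sol D (0 : Fin D.length → Fin 6 → ℤ) [0, 0] 0 := by
    have := sol_smul hSO 0 h0
    simpa using this
  refine ⟨X, ?_, hAng, ?_, ?_⟩
  · refine ⟨by rw [hAng]; exact hpAS, ?_, ?_, ?_, ?_, ?_, ?_, ?_, ?_, ?_, ?_⟩
    · intro δ hδ b i h
      have hδ' : Sol D δ [0, 0] 0 ∧ ∀ k i, Out D 1 k (c6 i) → δ k i = 0 := hδ
      exact hδ'.2 b i ((hpz b i).mp h)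
    · intro b i h
      exact o0 b i ((hpz b i).mp h)
    · intro δ hδ b
      have hδ' : Sol D δ [0, 0] 0 ∧ ∀ k i, Out D 1 k (c6 i) → δ k i = 0 := hδ
      exact ((hSO.1 ℤ D δ [0, 0] 0).mp hδ'.1).1 b
    · exact s0
    · intro b
      rw [hpz, hpz]
      rfl
    · intro b
      rw [hpz, hpz]
      rfl
    · rintro b ⟨h1, h2⟩
      exact Out_13 hV b ⟨(hpz b 1).mp h1, (hpz b 2).mp h2⟩
    · rintro b ⟨h1, h2, h3⟩
      refine Out_02 hV b ⟨(hpz b 0).mp h1, (hpz b 3).mp h2, ?_⟩
      rcases h3 with h3 | h3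
      · exact Or.inl ((hpz b 1).mp h3)
      · exact Or.inr ((hpz b 2).mp h3)
    · intro b hb
      show eij b 1 4 ∈ L
      rw [hlat]
      refine ⟨Sol_cor D 0 _ _ _ (fun k => ?_) hzero, ?_⟩
      · rw [(eij_cor b).1 k]
        funext j
        fin_cases j <;> rfl
      · intro k i h
        by_cases hk : k = b
        · subst hk
          have hb' : ¬ Out D 1 k 1 := fun h' => hb ((hpz k 1).mpr h')
          fin_cases i
          · simp [eij]
          · exact absurd h hb'
          · simp [eij]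
          · simp [eij]
          · exact absurd h hb'
          · simp [eij]
        · simp [eij, hk]
    · intro b hb
      show eij b 2 5 ∈ L
      rw [hlat]
      refine ⟨Sol_cor D 0 _ _ _ (fun k => ?_) hzero, ?_⟩
      · rw [(eij_cor b).2 k]
        funext j
        fin_cases j <;> rfl
      · intro k i h
        by_cases hk : k = b
        · subst hk
          have hb' : ¬ Out D 1 k 3 := fun h' => hb ((hpz k 2).mpr h')
          fin_cases i
          · simp [eij]
          · simp [eij]
          · exact absurd h hb'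
          · simp [eij]
          · simp [eij]
          · exact absurd h hb'
        · simp [eij, hk]
  · intro N hN
    rw [hUNR N D [0, 0]]
    unfold Net.Z
    refine Finset.sum_congr rfl fun a _ => ?_
    have hiff : Sol D (fun k => zz (a k)) [0, 0] ((N : ℤ) - 1) ↔
        (fun b => zz (a b)) - ((N : ℤ) - 1) • X.a0 ∈ X.L := by
      constructor
      · intro h
        show (fun b => zz (a b)) - ((N : ℤ) - 1) • a0 ∈ L
        rw [hlat]
        refine ⟨?_, ?_⟩
        · have h4 := sol_add hSO h (sol_smul hSO (-((N : ℤ) - 1)) h0)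
          have e : (fun k => zz (a k)) + (-((N : ℤ) - 1)) • a0 =
              (fun b => zz (a b)) - ((N : ℤ) - 1) • a0 := by
            rw [neg_smul]
            exact (sub_eq_add_neg _ _).symm
          rw [e] at h4
          have e2 : (N : ℤ) - 1 + -((N : ℤ) - 1) * 1 = 0 := by ring
          rw [e2] at h4
          exact h4
        · intro k i ho
          have h5 := hOZ.2 D 1 hV (fun k => zz (a k)) [0, 0] _ rfl (by simp) (fun k i => by
            unfold zz; positivity) h k i ho
          rw [Pi.sub_apply, Pi.sub_apply, Pi.smul_apply, Pi.smul_apply, o0 k i ho, smul_zero,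
            sub_zero]
          exact h5
      · intro h
        have h' : Sol D ((fun b => zz (a b)) - ((N : ℤ) - 1) • a0) [0, 0] 0 := ((hlat _).mp h).1
        have h4 := sol_add hSO h' (sol_smul hSO ((N : ℤ) - 1) h0)
        rw [sub_add_cancel] at h4
        simpa using h4
    by_cases hc : Sol D (fun k => zz (a k)) [0, 0] ((N : ℤ) - 1)
    · rw [if_pos hc, if_pos (hiff.mp hc)]
      rfl
    · rw [if_neg hc, if_neg (fun h => hc (hiff.mpr h))]
  · have h1 := hDIM hSO hSUR hNC D hV hP hD L hlat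
    have h2 := hCN hOZ D hV hP hD p hp
    show 2 * D.length + Module.finrank ℤ L = nV p + 3
    omega

end Pool.Agent.Q224.FAL
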