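import Pool.Agent.Q99.FAL.Stm2

/-!
Project FAL of helper99: common lemmas for the operators of the pieces (jobs FAL-TR), by helper224
-/

set_option autoImplicit false

namespace Pool.Agent.Q224.FAL

open Matrix Finset
open Pool.Agent.W715.VC (rt)
open Pool.Agent.W709.QAT (Piece run)
open Pool.Agent.Q191.TW (cs cs_norm rt_cs)
open Pool.Agent.Q191.LB (sg)
open Pool.Agent.Q191.SH (aw)
open Pool.Agent.Q191.TB (Gd Gd_cup Gd_cap Gd_twist run_app)
open Pool.Agent.Q99.FW (TZ Kg K2 Xm Gd_app)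
open Pool.Agent.Q99.FAL

variable {N : ℕ}

/-! ### signs -/

theorem ep_zero (N : ℕ) : ep N 0 = 1 := by simp [ep]

theorem ep_base (N : ℕ) : ((-1 : ℂ) ^ (N + 1)) ≠ 0 := pow_ne_zero _ (by norm_num)

theorem ep_add (N : ℕ) (j k : ℤ) : ep N (j + k) = ep N j * ep N k := _root_.zpow_add₀ (ep_base N) j k

theorem ep_sq (N : ℕ) (k : ℤ) : ep N k * ep N k = 1 := by
  rw [← ep_add]
  unfold ep
  rw [← two_mul, _root_.zpow_mul]
  have : ((-1 : ℂ) ^ (N + 1)) ^ (2 : ℤ) = 1 := by
    rw [zpow_ofNat, ← pow_mul, mul_comm, pow_mul]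
    simp
  rw [this, _root_.one_zpow]

theorem ep_norm (N : ℕ) (k : ℤ) : ‖ep N k‖ = 1 := by
  unfold ep
  rw [norm_zpow, norm_pow, norm_neg, norm_one, one_pow, _root_.one_zpow]

theorem Kg_norm (N : ℕ) (s : ℤ) : ‖Kg N s‖ = 1 := by
  unfold Kg
  split_ifs <;> exact cs_norm _ _

theorem K2_norm (N : ℕ) : ‖K2 N‖ = 1 := by
  unfold K2
  rw [rt_cs]
  exact cs_norm _ _

/-! ### labels -/

/-- the labels of the strands on the left -/
def lab : ℤ → List ℤ → List ℤ
  | _, [] => []
  | s, g :: G => (s - g) :: lab (s - g) G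

theorem lab_length : ∀ (G : List ℤ) (s : ℤ), (lab s G).length = G.length
  | [], _ => rfl
  | g :: G, s => by simp [lab, lab_length G]

theorem str_append : ∀ (G₁ : List ℤ) (s y : ℤ) (H : List ℤ),
    str s (G₁ ++ y :: H) = lab s G₁ ++ str (s - G₁.sum) (y :: H)
  | [], s, y, H => by simp [lab]
  | [g], s, y, H => by simp [lab, str]
  | g :: g' :: G, s, y, H => by
    have h := str_append (g' :: G) (s - g) y H
    have e : str s (g :: g' :: G ++ y :: H) = (s - g) :: str (s - g) (g' :: G ++ y :: H) := rfl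
    rw [e, h]
    have e2 : s - g - (g' :: G).sum = s - (g :: g' :: G).sum := by
      simp only [List.sum_cons]; ring
    rw [e2]
    rfl

theorem str_cons (w g h : ℤ) (r : List ℤ) : str w (g :: h :: r) = (w - g) :: str (w - g) (h :: r) :=
  rfl

theorem str_add : ∀ (G : List ℤ) (s c : ℤ), str (s + c) G = (str s G).map (· + c)
  | [], _, _ => rfl
  | [_], _, _ => rfl
  | g :: g' :: G, s, c => by
    rw [str_cons, str_cons, List.map_cons]
    have e : s + c - g = (s - g) + c := by ring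
    rw [e, str_add (g' :: G) (s - g) c]

theorem str_head (w y c : ℤ) (r : List ℤ) : str w ((y + c) :: r) = str (w - c) (y :: r) := by
  rcases r with _ | ⟨a, r⟩
  · rfl
  · rw [str_cons, str_cons]
    have e : w - (y + c) = w - c - y := by ring
    rw [e]

theorem str_length : ∀ (G : List ℤ) (s : ℤ) (g : ℤ), (str s (g :: G)).length = G.length
  | [], _, _ => rfl
  | g' :: G, s, g => by
    rw [str_cons, List.length_cons, str_length G, List.length_cons]

/-- a shift of the last labels -/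
theorem per_map (hP : S_PER) (hN : 0 < N) (k : ℤ) (l : List (Fin N)) : ∀ (R L : List ℤ),
    UU N (L ++ R.map (· + N * k)) l = ep N k ^ R.length * UU N (L ++ R) l
  | [], L => by simp
  | a :: R, L => by
    rw [List.map_cons, hP N hN L (R.map (· + N * k)) a k l]
    have e1 : L ++ a :: R.map (· + N * k) = (L ++ [a]) ++ R.map (· + N * k) := by simp
    have e2 : L ++ a :: R = (L ++ [a]) ++ R := by simp
    rw [e1, per_map hP hN k l R (L ++ [a]), e2, List.length_cons, pow_succ]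
    ring

/-! ### linearity -/

theorem gd_expand {p p' : ℕ} {O : (List (Fin N) → ℂ) → List (Fin N) → ℂ} (h : Gd p p' O)
    {ι : Type} (s : Finset ι) (f : List (Fin N) → ℂ) (K : ℂ) (w : ι → ℂ)
    (u : ι → List (Fin N) → ℂ)
    (hf : ∀ l', l'.length = p' → f l' = K * ∑ x ∈ s, w x * u x l')
    (l : List (Fin N)) (hl : l.length = p) : O f l = K * ∑ x ∈ s, w x * O (u x) l := by
  have h1 : O f l = O (fun l' => K * (fun l'' => ∑ x ∈ s, (fun x l3 => w x * u x l3) x l'') l') l :=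
    h.loc _ _ l hl fun l' hl' _ => hf l' hl'
  rw [h1, h.smul K _ l hl, h.sum s (fun x l3 => w x * u x l3) l hl]
  congr 1
  exact Finset.sum_congr rfl fun x _ => h.smul (w x) (u x) l hl

theorem Gd_aw (p n : ℕ) (h : p + 2 ≤ n) (σ : Bool) (m : ℕ) :
    Gd (N := N) n n (run N (rt N) (aw p σ m 1)) := by
  have h0 : aw p σ m 1 = [Piece.cup (p + 2)] ++ ([Piece.twist (p + 1) true 1] ++
      ([Piece.twist p true 1] ++ ([Piece.twist p true 1] ++ ([Piece.twist (p + 1) true 1] ++
      ([Piece.cap (p + 2)] ++ [Piece.twist p σ m]))))) := rfl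
  rw [h0]
  refine Gd_app (p' := n + 2) (Gd_cup (p + 2) n (by omega)) ?_
  refine Gd_app (Gd_twist (by omega) 1 true) ?_
  refine Gd_app (Gd_twist (by omega) 1 true) ?_
  refine Gd_app (Gd_twist (by omega) 1 true) ?_
  refine Gd_app (Gd_twist (by omega) 1 true) ?_
  exact Gd_app (Gd_cap (p + 2) n (by omega)) (Gd_twist (by omega) m σ)

/-! ### residues -/

theorem res_iff (x : Fin N) (z : ℤ) : ((x : ℕ) : ℤ) = z % N ↔ (N : ℤ) ∣ z - (x : ℕ) := by
  have hN : (0 : ℤ) < N := by exact_mod_cast x.pos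
  have hx : ((x : ℕ) : ℤ) < N := by exact_mod_cast x.2
  have hx0 : (0 : ℤ) ≤ ((x : ℕ) : ℤ) := by positivity
  have hm : ((x : ℕ) : ℤ) % N = (x : ℕ) := Int.emod_eq_of_lt hx0 hx
  constructor
  · intro h
    rw [h]
    exact Int.dvd_self_sub_emod
  · intro h
    have := (Int.emod_emod_of_dvd z (dvd_refl (N : ℤ)))
    have h2 : z % N = ((x : ℕ) : ℤ) % N := Int.ModEq.symm ((Int.modEq_iff_dvd).mpr h)
    rw [h2, hm]

theorem sum_res (hN : 0 < N) (b : ℤ) (Φ : ℤ → ℂ) (hΦ : ∀ t k : ℤ, Φ (t + N * k) = Φ t) :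
    ∑ t ∈ range N, (if (N : ℤ) ∣ (t : ℤ) - b then Φ t else 0) = Φ b := by
  have hN' : (0 : ℤ) < N := by exact_mod_cast hN
  have h0 := Int.emod_nonneg b hN'.ne'
  have h1 := Int.emod_lt_of_pos b hN'
  have e0 : ((b % N).toNat : ℤ) = b % N := Int.toNat_of_nonneg h0
  have e1 : (b % N) = b + N * (-(b / N)) := by
    have := Int.emod_add_mul_ediv b N
    linarith
  rw [Finset.sum_eq_single (b % N).toNat]
  · rw [e0, if_pos, e1, hΦ]
    rw [e1]
    exact ⟨-(b / N), by ring⟩
  · intro t ht hne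
    rw [Finset.mem_range] at ht
    rw [if_neg]
    intro hd
    apply hne
    have h2 : (t : ℤ) % N = b % N := Int.ModEq.symm ((Int.modEq_iff_dvd).mpr hd)
    have h3 : (t : ℤ) % N = t := Int.emod_eq_of_lt (by positivity) (by exact_mod_cast ht)
    rw [h3] at h2
    omega
  · intro h
    exfalso
    apply h
    rw [Finset.mem_range]
    omega

/-! ### decomposition of the gaps -/

theorem dec2 {G : List ℤ} {p n : ℕ} (hG : G.length = n + 1) (h : p + 1 ≤ n) :
    ∃ (G₁ : List ℤ) (x y : ℤ) (r : List ℤ), G = G₁ ++ x :: y :: r ∧ G₁.length = p ∧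
      r.length = n - p - 1 := by
  have h1 : G = G.take p ++ G.drop p := (List.take_append_drop p G).symm
  have h2 : (G.drop p).length = n + 1 - p := by rw [List.length_drop, hG]
  rcases hd : G.drop p with _ | ⟨x, _ | ⟨y, r⟩⟩
  · rw [hd] at h2; simp at h2; omega
  · rw [hd] at h2; simp at h2; omega
  · refine ⟨G.take p, x, y, r, by rw [← hd]; exact h1, ?_, ?_⟩
    · rw [List.length_take, hG]; omega
    · rw [hd] at h2; simp at h2; omega

theorem dec3 {G : List ℤ} {p n : ℕ} (hG : G.length = n + 1) (h : p + 2 ≤ n) :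
    ∃ (G₁ : List ℤ) (x g y : ℤ) (r : List ℤ), G = G₁ ++ x :: g :: y :: r ∧ G₁.length = p ∧
      r.length = n - p - 2 := by
  obtain ⟨G₁, x, g, r, h1, h2, h3⟩ := dec2 hG (by omega : p + 1 ≤ n)
  rcases r with _ | ⟨y, r⟩
  · simp at h3; omega
  · exact ⟨G₁, x, g, y, r, h1, h2, by simp at h3; omega⟩

theorem dec4 {G : List ℤ} {p n : ℕ} (hG : G.length = n + 1) (h : p + 3 ≤ n) :
    ∃ (G₁ : List ℤ) (x g g' y : ℤ) (r : List ℤ), G = G₁ ++ x :: g :: g' :: y :: r ∧
      G₁.length = p ∧ r.length = n - p - 3 := by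
  obtain ⟨G₁, x, g, g', r, h1, h2, h3⟩ := dec3 hG (by omega : p + 2 ≤ n)
  rcases r with _ | ⟨y, r⟩
  · simp at h3; omega
  · exact ⟨G₁, x, g, g', y, r, h1, h2, by simp at h3; omega⟩

theorem n12 (x : Fin 6 → ℤ) : n1 x + n2 x = cor x 0 + cor x 1 + cor x 2 + cor x 3 := by
  simp only [n1, n2, cor, Matrix.cons_val_zero, Matrix.cons_val_one, Matrix.cons_val]
  ring

theorem cor0 (x : Fin 6 → ℤ) : cor x 0 = x 0 := rfl

end Pool.Agent.Q224.FAL
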