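import Pool.Agent.Q224.FAL.Com

/-!
Project FAL of helper99: the operators of the pieces `V`, `LL`, `LR` (jobs FAL-TR_V, FAL-TR_LL,
FAL-TR_LR), by helper224
-/

set_option autoImplicit false

namespace Pool.Agent.Q224.FAL

open Matrix Finset
open Pool.Agent.W715.VC (rt)
open Pool.Agent.W709.QAT (Piece run)
open Pool.Agent.Q191.TW (cs cs_norm rt_cs)
open Pool.Agent.Q191.LB (sg)
open Pool.Agent.Q191.SH (aw)
open Pool.Agent.Q191.TB (Gd Gd_cup Gd_cap Gd_twist run_app)
open Pool.Agent.Q99.FW (TZ Kg K2 Xm Gd_app)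
open Pool.Agent.Q99.FAL

variable {N : ℕ}

theorem cls_V {p : ℕ} {G₁ : List ℤ} (h : G₁.length = p) (q : Fin 4 → ℤ) (x g y : ℤ)
    (r : List ℤ) : cls .V p q (G₁ ++ x :: g :: y :: r) = [g + q 0] := by
  unfold cls
  rw [List.drop_left' h]

theorem stp_V {p : ℕ} {G₁ : List ℤ} (h : G₁.length = p) (q : Fin 4 → ℤ) (x g y : ℤ)
    (r : List ℤ) : stp .V p q (G₁ ++ x :: g :: y :: r) =
      G₁ ++ (x + q 3) :: q 2 :: (y + q 1) :: r := by
  unfold stp
  rw [List.drop_left' h, List.take_left' h]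

theorem cls_LL {p : ℕ} {G₁ : List ℤ} (h : G₁.length = p) (q : Fin 4 → ℤ) (x g g' y : ℤ)
    (r : List ℤ) : cls .LL p q (G₁ ++ x :: g :: g' :: y :: r) = [g + q 0, g' + q 1] := by
  unfold cls
  rw [List.drop_left' h]

theorem stp_LL {p : ℕ} {G₁ : List ℤ} (h : G₁.length = p) (q : Fin 4 → ℤ) (x g g' y : ℤ)
    (r : List ℤ) : stp .LL p q (G₁ ++ x :: g :: g' :: y :: r) =
      G₁ ++ (x + q 3) :: (y + q 2) :: r := by
  unfold stp
  rw [List.drop_left' h, List.take_left' h]

theorem cls_LR {p : ℕ} {G₁ : List ℤ} (h : G₁.length = p) (q : Fin 4 → ℤ) (x g g' y : ℤ)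
    (r : List ℤ) : cls .LR p q (G₁ ++ x :: g :: g' :: y :: r) = [g + q 3, g' + q 0] := by
  unfold cls
  rw [List.drop_left' h]

theorem stp_LR {p : ℕ} {G₁ : List ℤ} (h : G₁.length = p) (q : Fin 4 → ℤ) (x g g' y : ℤ)
    (r : List ℤ) : stp .LR p q (G₁ ++ x :: g :: g' :: y :: r) =
      G₁ ++ (x + q 2) :: (y + q 1) :: r := by
  unfold stp
  rw [List.drop_left' h, List.take_left' h]

theorem task_TR_V : TR .V := by
  intro hP _ _ hR hF N hN p n σ m hpn
  have hN0 : (N : ℤ) ≠ 0 := by exact_mod_cast hN.ne'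
  have hpn' : p + 2 ≤ n := hpn
  refine ⟨Kg N (sg σ) ^ m * K2 N, by rw [norm_mul, norm_pow, Kg_norm, K2_norm]; simp, ?_⟩
  intro s G hG _
  obtain ⟨G₁, x, g, y, r, rfl, hp, hr⟩ := dec3 hG hpn'
  refine ⟨fun X => ep N (-((g + cor (zz X) 0 + 1) / N - 1)) ^ (r.length + 1), ?_, ?_⟩
  · intro X hX
    rw [cls_V hp] at hX
    have h1 := hX _ (List.mem_singleton_self _)
    have e : g + cor (zz X) 0 + 1 = N := by linarith
    simp only [e]
    rw [Int.ediv_self hN0]
    simp [ep_zero]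
  · intro l hl
    have hl' : l.length = n := hl
    rw [str_append, str_cons, str_cons]
    have hlen : (str (s - G₁.sum - x - g) (y :: r)).length = r.length := str_length _ _ _
    show run N (rt N) (aw p σ m 1) _ l = _
    rw [hR hF N hN σ m p (lab s G₁) _ _ _ (by rw [lab_length, hp]) l (by
      rw [hl', List.length_append, List.length_cons, List.length_cons, hlen, lab_length, hp, hr]
      omega)]
    show Kg N (sg σ) ^ m * K2 N * N * _ = Kg N (sg σ) ^ m * K2 N * N ^ 1 * _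
    rw [pow_one]
    congr 1
    refine Finset.sum_congr rfl fun X _ => ?_
    rw [cls_V hp, stp_V hp]
    by_cases hn : n1 (zz X) + n2 (zz X) = N - 1
    swap
    · rw [if_neg (fun h => hn h.2), if_neg (fun h => hn h.1)]
    have hsum := n12 (zz X)
    rw [hn] at hsum
    beta_reduce
    generalize hq0 : cor (zz X) 0 = q0 at hsum ⊢
    generalize hq1 : cor (zz X) 1 = q1 at hsum ⊢
    generalize hq2 : cor (zz X) 2 = q2 at hsum ⊢
    generalize hq3 : cor (zz X) 3 = q3 at hsum ⊢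
    have hx0 : ((X 0 : ℕ) : ℤ) = q0 := by rw [← hq0]; rfl
    set u := s - G₁.sum with hu
    have hiff : (((X 0 : ℕ) : ℤ) = (u - x - g - (u - x) - 1) % N) ↔ (N : ℤ) ∣ g + q0 + 1 := by
      rw [res_iff, hx0, ← Int.dvd_neg]
      have : -(u - x - g - (u - x) - 1 - q0) = g + q0 + 1 := by ring
      rw [this]
    by_cases hd : (N : ℤ) ∣ g + q0 + 1
    swap
    · rw [if_neg (fun h => hd (hiff.mp h.1)), if_neg]
      intro h
      exact hd (h.2 _ (by simp))
    rw [if_pos ⟨hiff.mpr hd, hn⟩, if_pos ⟨hn, by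
      intro c hc
      rw [List.mem_singleton] at hc
      rw [hc]; exact hd⟩]
    obtain ⟨c, hc⟩ := hd
    rw [hc, Int.mul_ediv_cancel_left _ hN0, mul_assoc]
    congr 1
    rw [str_append, ← hu, str_cons, str_cons, str_head]
    have a1 : u - x - g + q1 = (u - (x + q3) - q2) + N * (-(c - 1)) := by linarith
    have a2 : str (u - x - g) (y :: r) =
        (str (u - (x + q3) - q2 - q1) (y :: r)).map (· + N * (-(c - 1))) := by
      rw [← str_add]; congr 1; linarith
    have a3 : u - x - q3 = u - (x + q3) := by ring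
    rw [a1, a2, a3]
    have a4 : lab s G₁ ++ (u - (x + q3)) :: ((u - (x + q3) - q2) + N * (-(c - 1))) ::
        (str (u - (x + q3) - q2 - q1) (y :: r)).map (· + N * (-(c - 1))) =
        (lab s G₁ ++ [u - (x + q3)]) ++ ((u - (x + q3) - q2) ::
          str (u - (x + q3) - q2 - q1) (y :: r)).map (· + N * (-(c - 1))) := by simp
    rw [a4, per_map hP hN, List.length_cons, str_length]
    congr 2
    simp

end Pool.Agent.Q224.FAL
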