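import Pool.Agent.Q224.FAL.TRb

/-!
Project FAL of helper99: the operators of the pieces `YL`, `YR`, `H`, by helper224
-/

set_option autoImplicit false

namespace Pool.Agent.Q224.FAL

open Matrix Finset
open Pool.Agent.W715.VC (rt)
open Pool.Agent.W709.QAT (Piece run)
open Pool.Agent.Q191.TW (cs cs_norm rt_cs)
open Pool.Agent.Q191.LB (sg)
open Pool.Agent.Q191.SH (aw)
open Pool.Agent.Q191.TB (Gd Gd_cup Gd_cap Gd_twist run_app)
open Pool.Agent.Q99.FW (TZ Kg K2 Xm Gd_app)
open Pool.Agent.Q99.FAL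

variable {N : ℕ}

theorem stp_YL {p : ℕ} {G₁ : List ℤ} (h : G₁.length = p) (q : Fin 4 → ℤ) (x y : ℤ)
    (r : List ℤ) : stp .YL p q (G₁ ++ x :: y :: r) =
      G₁ ++ (x + q 3) :: q 2 :: q 1 :: (y + q 0) :: r := by
  unfold stp
  rw [List.drop_left' h, List.take_left' h]

theorem stp_YR {p : ℕ} {G₁ : List ℤ} (h : G₁.length = p) (q : Fin 4 → ℤ) (x y : ℤ)
    (r : List ℤ) : stp .YR p q (G₁ ++ x :: y :: r) =
      G₁ ++ (x + q 0) :: q 3 :: q 2 :: (y + q 1) :: r := by
  unfold stp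
  rw [List.drop_left' h, List.take_left' h]

theorem cls_YL {p : ℕ} (q : Fin 4 → ℤ) (G : List ℤ) : cls .YL p q G = [] := by
  unfold cls
  rfl

theorem cls_YR {p : ℕ} (q : Fin 4 → ℤ) (G : List ℤ) : cls .YR p q G = [] := by
  unfold cls
  rfl

theorem cls_H {p : ℕ} {G₁ : List ℤ} (h : G₁.length = p) (q : Fin 4 → ℤ) (x g y : ℤ)
    (r : List ℤ) : cls .H p q (G₁ ++ x :: g :: y :: r) = [g + q 3] := by
  unfold cls
  rw [List.drop_left' h]

theorem stp_H {p : ℕ} {G₁ : List ℤ} (h : G₁.length = p) (q : Fin 4 → ℤ) (x g y : ℤ)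
    (r : List ℤ) : stp .H p q (G₁ ++ x :: g :: y :: r) =
      G₁ ++ (x + q 2) :: q 1 :: (y + q 0) :: r := by
  unfold stp
  rw [List.drop_left' h, List.take_left' h]

/-- the sum over the label of a cup -/
theorem cup_sum (hN : 0 < N) (K : ℂ) (Φ : (Fin 6 → Fin N) → ℤ → ℂ) (b : (Fin 6 → Fin N) → ℤ)
    (c : (Fin 6 → Fin N) → ℤ → Prop) [∀ x, DecidablePred (c x)]
    (hc : ∀ (x : Fin 6 → Fin N) (t : ℕ), c x t ↔ (N : ℤ) ∣ (t : ℤ) - b x)
    (w : (Fin 6 → Fin N) → ℂ) (hΦ : ∀ x (t k : ℤ), Φ x (t + N * k) = Φ x t) :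
    ∑ t ∈ range N, (K * ∑ x : Fin 6 → Fin N,
      (if c x t ∧ n1 (zz x) + n2 (zz x) = N - 1 then w x else 0) * Φ x t) =
    K * ∑ x : Fin 6 → Fin N, (if n1 (zz x) + n2 (zz x) = N - 1 then w x else 0) * Φ x (b x) := by
  rw [← Finset.mul_sum, Finset.sum_comm]
  congr 1
  refine Finset.sum_congr rfl fun x _ => ?_
  by_cases hn : n1 (zz x) + n2 (zz x) = (N : ℤ) - 1
  · rw [if_pos hn, ← sum_res hN (b x) (Φ x) (hΦ x), Finset.mul_sum]
    refine Finset.sum_congr rfl fun t _ => ?_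
    by_cases h : c x t
    · rw [if_pos ⟨h, hn⟩, if_pos ((hc x t).mp h)]
    · rw [if_neg (fun h' => h h'.1), if_neg (fun h' => h ((hc x t).mpr h'))]
      ring
  · rw [if_neg hn, zero_mul]
    refine Finset.sum_eq_zero fun t _ => ?_
    rw [if_neg (fun h => hn h.2), zero_mul]

/-- a shift of two labels by the same multiple of `N` -/
theorem per2 (hP : S_PER) (hN : 0 < N) (L M R : List ℤ) (a b k : ℤ) (l : List (Fin N)) :
    UU N (L ++ (a + N * k) :: (M ++ (b + N * k) :: R)) l = UU N (L ++ a :: (M ++ b :: R)) l := by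
  rw [hP N hN]
  have e1 : L ++ a :: (M ++ (b + N * k) :: R) = (L ++ a :: M) ++ (b + N * k) :: R := by simp
  have e2 : L ++ a :: (M ++ b :: R) = (L ++ a :: M) ++ b :: R := by simp
  rw [e1, hP N hN, e2, ← mul_assoc, ep_sq, one_mul]

/-- a cup and a region on its left leg -/
theorem coreL (hP : S_PER) (hU : S_CUP) (hR : S_REG) (hF : F1) (hN : 0 < N) (σ : Bool)
    (m p n : ℕ) (hpn : p + 1 ≤ n) : ∃ κ : ℂ, ‖κ‖ = 1 ∧ ∀ (L R : List ℤ) (i : ℤ),
    L.length = p → R.length + p + 1 = n → ∀ l : List (Fin N), l.length = n + 2 →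
    run N (rt N) (aw p σ m 1) (run N (rt N) [Piece.cup (p + 1)] (UU N (L ++ i :: R))) l =
      κ * ∑ x : Fin 6 → Fin N,
        (if n1 (zz x) + n2 (zz x) = N - 1 then wt6 N (sg σ * m) (zz x) else 0) *
          UU N (L ++ (i - cor (zz x) 3) :: (i + 1 + cor (zz x) 0 - N + cor (zz x) 1) ::
            (i + 1 + cor (zz x) 0 - N) :: R.map (· + 1)) l := by
  obtain ⟨κ, hκ, hcup⟩ := hU N hN n (p + 1) hpn
  refine ⟨κ * (Kg N (sg σ) ^ m * K2 N), by
    simp only [norm_mul, norm_pow, Kg_norm, K2_norm, hκ]; simp, ?_⟩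
  intro L R i hL hRl l hl
  have hNc : (N : ℂ) ≠ 0 := by exact_mod_cast hN.ne'
  have hf : ∀ l' : List (Fin N), l'.length = n + 2 →
      run N (rt N) [Piece.cup (p + 1)] (UU N (L ++ i :: R)) l' =
        κ / N * ∑ t ∈ range N, 1 * UU N (L ++ i :: (t : ℤ) :: ((t : ℤ) :: R.map (· + 1))) l' := by
    intro l' hl'
    rw [hcup (L ++ i :: R) (by rw [List.length_append, List.length_cons]; omega) l' hl']
    have e1 : (L ++ i :: R).take (p + 1) = L ++ [i] := by
      have : L ++ i :: R = (L ++ [i]) ++ R := by simp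
      rw [this]
      exact List.take_left' (by simp [hL])
    have e2 : (L ++ i :: R).drop (p + 1) = R := by
      have : L ++ i :: R = (L ++ [i]) ++ R := by simp
      rw [this]
      exact List.drop_left' (by simp [hL])
    rw [e1, e2]
    simp
  rw [gd_expand (Gd_aw p (n + 2) (by omega) σ m) (range N) _ _ _ _ hf l hl]
  have hreg : ∀ t ∈ range N, (1 : ℂ) * run N (rt N) (aw p σ m 1)
      (UU N (L ++ i :: (t : ℤ) :: ((t : ℤ) :: R.map (· + 1)))) l =
      (Kg N (sg σ) ^ m * K2 N * N) * ∑ x : Fin 6 → Fin N,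
        (if ((x 0 : ℕ) : ℤ) = ((t : ℤ) - i - 1) % N ∧ n1 (zz x) + n2 (zz x) = N - 1 then
          wt6 N (sg σ * m) (zz x) else 0) *
          UU N (L ++ (i - cor (zz x) 3) :: ((t : ℤ) + cor (zz x) 1) :: ((t : ℤ) ::
            R.map (· + 1))) l := by
    intro t _
    rw [one_mul]
    exact reg' hR hF hN σ m p L ((t : ℤ) :: R.map (· + 1)) i t hL l (by
      simp only [List.length_append, List.length_cons, List.length_map, hl]
      omega)
  rw [Finset.sum_congr rfl hreg]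
  have key := cup_sum hN (Kg N (sg σ) ^ m * K2 N * N)
    (fun x t => UU N (L ++ (i - cor (zz x) 3) :: (t + cor (zz x) 1) :: (t ::
      R.map (· + 1))) l) (fun x => i + 1 + cor (zz x) 0)
    (fun x t => ((x 0 : ℕ) : ℤ) = (t - i - 1) % N) (fun x t => by
      rw [res_iff]
      have : (t : ℤ) - i - 1 - ((x 0 : ℕ) : ℤ) = t - (i + 1 + cor (zz x) 0) := by
        have : cor (zz x) 0 = ((x 0 : ℕ) : ℤ) := rfl
        rw [this]; ring
      rw [this]) (fun x => wt6 N (sg σ * m) (zz x)) (fun x t k => by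
      have e : t + N * k + cor (zz x) 1 = (t + cor (zz x) 1) + N * k := by ring
      simp only [e]
      have := per2 hP hN (L ++ [i - cor (zz x) 3]) [] (R.map (· + 1)) (t + cor (zz x) 1) t k l
      simpa using this)
  rw [key]
  have hK : κ / N * (Kg N (sg σ) ^ m * K2 N * N * ∑ x : Fin 6 → Fin N,
      (if n1 (zz x) + n2 (zz x) = N - 1 then wt6 N (sg σ * m) (zz x) else 0) *
        UU N (L ++ (i - cor (zz x) 3) :: (i + 1 + cor (zz x) 0 + cor (zz x) 1) ::
          ((i + 1 + cor (zz x) 0) :: R.map (· + 1))) l) =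
      κ * (Kg N (sg σ) ^ m * K2 N) * ∑ x : Fin 6 → Fin N,
      (if n1 (zz x) + n2 (zz x) = N - 1 then wt6 N (sg σ * m) (zz x) else 0) *
        UU N (L ++ (i - cor (zz x) 3) :: (i + 1 + cor (zz x) 0 + cor (zz x) 1) ::
          ((i + 1 + cor (zz x) 0) :: R.map (· + 1))) l := by
    field_simp
  refine (show _ = _ from hK).trans ?_
  congr 1
  refine Finset.sum_congr rfl fun x _ => ?_
  congr 1
  have := per2 hP hN (L ++ [i - cor (zz x) 3]) [] (R.map (· + 1))
    (i + 1 + cor (zz x) 0 + cor (zz x) 1) (i + 1 + cor (zz x) 0) (-1) l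
  have e1 : i + 1 + cor (zz x) 0 - N + cor (zz x) 1 =
    i + 1 + cor (zz x) 0 + cor (zz x) 1 + N * (-1) := by ring
  have e2 : i + 1 + cor (zz x) 0 - N = i + 1 + cor (zz x) 0 + N * (-1) := by ring
  rw [e1, e2]
  have e3 := this.symm
  simpa using e3

/-- a cup and a region on its right leg -/
theorem coreR (hP : S_PER) (hU : S_CUP) (hR : S_REG) (hF : F1) (hN : 0 < N) (σ : Bool)
    (m p n : ℕ) (hpn : p + 1 ≤ n) : ∃ κ : ℂ, ‖κ‖ = 1 ∧ ∀ (L R : List ℤ) (j : ℤ),
    L.length = p → R.length + p + 1 = n → ∀ l : List (Fin N), l.length = n + 2 →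
    run N (rt N) (aw (p + 1) σ m 1) (run N (rt N) [Piece.cup p] (UU N (L ++ j :: R))) l =
      κ * ∑ x : Fin 6 → Fin N,
        (if n1 (zz x) + n2 (zz x) = N - 1 then wt6 N (sg σ * m) (zz x) else 0) *
          UU N (L ++ (j - cor (zz x) 0) :: (j - cor (zz x) 0 - cor (zz x) 3) ::
            (j + 1 + cor (zz x) 1) :: R.map (· + 1)) l := by
  obtain ⟨κ, hκ, hcup⟩ := hU N hN n p (by omega)
  refine ⟨κ * (Kg N (sg σ) ^ m * K2 N), by
    simp only [norm_mul, norm_pow, Kg_norm, K2_norm, hκ]; simp, ?_⟩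
  intro L R j hL hRl l hl
  have hNc : (N : ℂ) ≠ 0 := by exact_mod_cast hN.ne'
  have hf : ∀ l' : List (Fin N), l'.length = n + 2 →
      run N (rt N) [Piece.cup p] (UU N (L ++ j :: R)) l' =
        κ / N * ∑ t ∈ range N, 1 * UU N ((L ++ [(t : ℤ)]) ++ (t : ℤ) :: (j + 1) ::
          R.map (· + 1)) l' := by
    intro l' hl'
    rw [hcup (L ++ j :: R) (by rw [List.length_append, List.length_cons]; omega) l' hl']
    rw [List.take_left' hL, List.drop_left' hL]
    simp
  rw [gd_expand (Gd_aw (p + 1) (n + 2) (by omega) σ m) (range N) _ _ _ _ hf l hl]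
  have hreg : ∀ t ∈ range N, (1 : ℂ) * run N (rt N) (aw (p + 1) σ m 1)
      (UU N ((L ++ [(t : ℤ)]) ++ (t : ℤ) :: (j + 1) :: R.map (· + 1))) l =
      (Kg N (sg σ) ^ m * K2 N * N) * ∑ x : Fin 6 → Fin N,
        (if ((x 0 : ℕ) : ℤ) = (j + 1 - (t : ℤ) - 1) % N ∧ n1 (zz x) + n2 (zz x) = N - 1 then
          wt6 N (sg σ * m) (zz x) else 0) *
          UU N ((L ++ [(t : ℤ)]) ++ ((t : ℤ) - cor (zz x) 3) :: (j + 1 + cor (zz x) 1) ::
            R.map (· + 1)) l := by
    intro t _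
    rw [one_mul]
    exact reg' hR hF hN σ m (p + 1) (L ++ [(t : ℤ)]) (R.map (· + 1)) t (j + 1) (by simp [hL]) l (by
      simp only [List.length_append, List.length_cons, List.length_nil, List.length_map, hl]
      omega)
  rw [Finset.sum_congr rfl hreg]
  have key := cup_sum hN (Kg N (sg σ) ^ m * K2 N * N)
    (fun x t => UU N ((L ++ [t]) ++ (t - cor (zz x) 3) :: (j + 1 + cor (zz x) 1) ::
      R.map (· + 1)) l) (fun x => j - cor (zz x) 0)
    (fun x t => ((x 0 : ℕ) : ℤ) = (j + 1 - t - 1) % N) (fun x t => by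
      rw [res_iff, ← Int.dvd_neg]
      have : -(j + 1 - (t : ℤ) - 1 - ((x 0 : ℕ) : ℤ)) = t - (j - cor (zz x) 0) := by
        have : cor (zz x) 0 = ((x 0 : ℕ) : ℤ) := rfl
        rw [this]; ring
      rw [this]) (fun x => wt6 N (sg σ * m) (zz x)) (fun x t k => by
      have e : t + N * k - cor (zz x) 3 = (t - cor (zz x) 3) + N * k := by ring
      simp only [e]
      have := per2 hP hN L [] ((j + 1 + cor (zz x) 1) :: R.map (· + 1)) t (t - cor (zz x) 3) k l
      simpa using this)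
  rw [key]
  have hK : κ / N * (Kg N (sg σ) ^ m * K2 N * N * ∑ x : Fin 6 → Fin N,
      (if n1 (zz x) + n2 (zz x) = N - 1 then wt6 N (sg σ * m) (zz x) else 0) *
        UU N ((L ++ [j - cor (zz x) 0]) ++ (j - cor (zz x) 0 - cor (zz x) 3) ::
          (j + 1 + cor (zz x) 1) :: R.map (· + 1)) l) =
      κ * (Kg N (sg σ) ^ m * K2 N) * ∑ x : Fin 6 → Fin N,
      (if n1 (zz x) + n2 (zz x) = N - 1 then wt6 N (sg σ * m) (zz x) else 0) *
        UU N ((L ++ [j - cor (zz x) 0]) ++ (j - cor (zz x) 0 - cor (zz x) 3) ::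
          (j + 1 + cor (zz x) 1) :: R.map (· + 1)) l := by
    field_simp
  refine (show _ = _ from hK).trans ?_
  congr 1
  refine Finset.sum_congr rfl fun x _ => ?_
  congr 1
  simp

theorem task_TR_YL : TR .YL := by
  intro hP hU _ hR hF N hN p n σ m hpn
  have hpn' : p + 1 ≤ n := hpn
  obtain ⟨κ, hκ, hcore⟩ := coreL hP hU hR hF hN σ m p n hpn'
  refine ⟨κ * ep N 1 ^ (n - p - 1), by
    simp only [norm_mul, norm_pow, ep_norm, hκ]; simp, ?_⟩
  intro s G hG _
  obtain ⟨G₁, x, y, r, rfl, hp, hr⟩ := dec2 hG hpn'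
  refine ⟨fun _ => 1, fun _ _ => rfl, ?_⟩
  intro l hl
  have hl' : l.length = n + 2 := hl
  rw [str_append, str_cons]
  set u := s - G₁.sum with hu
  show run N (rt N) (aw p σ m 1) (run N (rt N) [Piece.cup (p + 1)] _) l = _
  rw [hcore (lab s G₁) (str (u - x) (y :: r)) (u - x) (by rw [lab_length, hp]) (by
    rw [str_length]; omega) l hl']
  show _ = κ * ep N 1 ^ (n - p - 1) * N ^ 0 * _
  rw [pow_zero, mul_one, mul_assoc]
  congr 1
  rw [Finset.mul_sum]
  refine Finset.sum_congr rfl fun X _ => ?_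
  rw [cls_YL, stp_YL hp]
  by_cases hn : n1 (zz X) + n2 (zz X) = N - 1
  swap
  · rw [if_neg hn, if_neg (fun h => hn h.1)]; ring
  have hsum := n12 (zz X)
  rw [hn] at hsum
  beta_reduce
  generalize hq0 : cor (zz X) 0 = q0 at hsum ⊢
  generalize hq1 : cor (zz X) 1 = q1 at hsum ⊢
  generalize hq2 : cor (zz X) 2 = q2 at hsum ⊢
  generalize hq3 : cor (zz X) 3 = q3 at hsum ⊢
  rw [if_pos hn, if_pos ⟨hn, by simp⟩, str_append, ← hu, str_cons, str_cons, str_cons, str_head]
  have a1 : u - x + 1 + q0 - N + q1 = u - (x + q3) - q2 := by linarith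
  have a2 : u - x + 1 + q0 - N = u - (x + q3) - q2 - q1 := by linarith
  have a3 : (str (u - x) (y :: r)).map (· + 1) =
      (str (u - (x + q3) - q2 - q1 - q0) (y :: r)).map (· + (N : ℤ) * 1) := by
    rw [← str_add, ← str_add]; congr 1; linarith
  have a5 : u - x - q3 = u - (x + q3) := by ring
  rw [a1, a2, a3, a5]
  have a4 : lab s G₁ ++ (u - (x + q3)) :: (u - (x + q3) - q2) :: (u - (x + q3) - q2 - q1) ::
      (str (u - (x + q3) - q2 - q1 - q0) (y :: r)).map (· + (N : ℤ) * 1) =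
      (lab s G₁ ++ [u - (x + q3), u - (x + q3) - q2, u - (x + q3) - q2 - q1]) ++
        (str (u - (x + q3) - q2 - q1 - q0) (y :: r)).map (· + (N : ℤ) * 1) := by simp
  have a6 : (lab s G₁ ++ [u - (x + q3), u - (x + q3) - q2, u - (x + q3) - q2 - q1]) ++
        str (u - (x + q3) - q2 - q1 - q0) (y :: r) =
      lab s G₁ ++ (u - (x + q3)) :: (u - (x + q3) - q2) :: (u - (x + q3) - q2 - q1) ::
        str (u - (x + q3) - q2 - q1 - q0) (y :: r) := by simp
  rw [a4, per_map hP hN, str_length, hr, a6]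
  ring

theorem task_TR_YR : TR .YR := by
  intro hP hU _ hR hF N hN p n σ m hpn
  have hpn' : p + 1 ≤ n := hpn
  obtain ⟨κ, hκ, hcore⟩ := coreR hP hU hR hF hN σ m p n hpn'
  refine ⟨κ * ep N 1 ^ (n - p - 1 + 1), by
    simp only [norm_mul, norm_pow, ep_norm, hκ]; simp, ?_⟩
  intro s G hG _
  obtain ⟨G₁, x, y, r, rfl, hp, hr⟩ := dec2 hG hpn'
  refine ⟨fun _ => 1, fun _ _ => rfl, ?_⟩
  intro l hl
  have hl' : l.length = n + 2 := hl
  rw [str_append, str_cons]
  set u := s - G₁.sum with hu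
  show run N (rt N) (aw (p + 1) σ m 1) (run N (rt N) [Piece.cup p] _) l = _
  rw [hcore (lab s G₁) (str (u - x) (y :: r)) (u - x) (by rw [lab_length, hp]) (by
    rw [str_length]; omega) l hl']
  show _ = κ * ep N 1 ^ (n - p - 1 + 1) * N ^ 0 * _
  rw [pow_zero, mul_one, mul_assoc]
  congr 1
  rw [Finset.mul_sum]
  refine Finset.sum_congr rfl fun X _ => ?_
  rw [cls_YR, stp_YR hp]
  by_cases hn : n1 (zz X) + n2 (zz X) = N - 1
  swap
  · rw [if_neg hn, if_neg (fun h => hn h.1)]; ring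
  have hsum := n12 (zz X)
  rw [hn] at hsum
  beta_reduce
  generalize hq0 : cor (zz X) 0 = q0 at hsum ⊢
  generalize hq1 : cor (zz X) 1 = q1 at hsum ⊢
  generalize hq2 : cor (zz X) 2 = q2 at hsum ⊢
  generalize hq3 : cor (zz X) 3 = q3 at hsum ⊢
  rw [if_pos hn, if_pos ⟨hn, by simp⟩, str_append, ← hu, str_cons, str_cons, str_cons, str_head]
  have a1 : u - x + 1 + q1 = (u - (x + q0) - q3 - q2) + (N : ℤ) * 1 := by linarith
  have a3 : (str (u - x) (y :: r)).map (· + 1) =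
      (str (u - (x + q0) - q3 - q2 - q1) (y :: r)).map (· + (N : ℤ) * 1) := by
    rw [← str_add, ← str_add]; congr 1; linarith
  have a5 : u - x - q0 = u - (x + q0) := by ring
  rw [a1, a3, a5]
  have a4 : lab s G₁ ++ (u - (x + q0)) :: (u - (x + q0) - q3) ::
      (u - (x + q0) - q3 - q2 + (N : ℤ) * 1) ::
      (str (u - (x + q0) - q3 - q2 - q1) (y :: r)).map (· + (N : ℤ) * 1) =
      (lab s G₁ ++ [u - (x + q0), u - (x + q0) - q3]) ++
        ((u - (x + q0) - q3 - q2) :: str (u - (x + q0) - q3 - q2 - q1) (y :: r)).map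
          (· + (N : ℤ) * 1) := by simp
  have a6 : (lab s G₁ ++ [u - (x + q0), u - (x + q0) - q3]) ++
        ((u - (x + q0) - q3 - q2) :: str (u - (x + q0) - q3 - q2 - q1) (y :: r)) =
      lab s G₁ ++ (u - (x + q0)) :: (u - (x + q0) - q3) :: (u - (x + q0) - q3 - q2) ::
        str (u - (x + q0) - q3 - q2 - q1) (y :: r) := by simp
  rw [a4, per_map hP hN, List.length_cons, str_length, hr, a6]
  ring

theorem task_TR_H : TR .H := by
  intro hP hU hC hR hF N hN p n σ m hpn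
  have hN0 : (N : ℤ) ≠ 0 := by exact_mod_cast hN.ne'
  have hpn' : p + 2 ≤ n := hpn
  obtain ⟨κ, hκ, hcore⟩ := coreL hP hU hR hF hN σ m (p + 1) n (by omega)
  obtain ⟨κ', hκ', hcap⟩ := hC N hN (n - p) p
  refine ⟨κ * κ' * ep N (-1), by
    simp only [norm_mul, ep_norm, hκ, hκ']; simp, ?_⟩
  intro s G hG _
  obtain ⟨G₁, x, g, y, r, rfl, hp, hr⟩ := dec3 hG hpn'
  refine ⟨fun X => ep N (-((g + cor (zz X) 3 + 1) / N - 1)) ^ (r.length + 1), ?_, ?_⟩
  · intro X hX
    rw [cls_H hp] at hX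
    have h1 := hX _ (List.mem_singleton_self _)
    have e : g + cor (zz X) 3 + 1 = N := by linarith
    simp only [e]
    rw [Int.ediv_self hN0]
    simp [ep_zero]
  · intro l hl
    have hl' : l.length = n := hl
    rw [str_append, str_cons, str_cons]
    set u := s - G₁.sum with hu
    have e0 : els ⟨.H, p, σ, m⟩ = [Piece.cup (p + 1 + 1)] ++ (aw (p + 1) σ m 1 ++ [Piece.cap p]) :=
      rfl
    rw [e0, run_app, run_app]
    have hgd : Gd (N := N) n (n + 2) (run N (rt N) [Piece.cap p]) :=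
      Gd_cap (N := N) p n (by omega)
    have b0 : lab s G₁ ++ (u - x) :: (u - x - g) :: str (u - x - g) (y :: r) =
        (lab s G₁ ++ [u - x]) ++ (u - x - g) :: str (u - x - g) (y :: r) := by simp
    rw [b0]
    rw [gd_expand hgd Finset.univ _ _ _ _ (fun l' hl'' => hcore (lab s G₁ ++ [u - x])
      (str (u - x - g) (y :: r)) (u - x - g) (by simp [lab_length, hp]) (by
        rw [str_length]; omega) l' hl'') l hl']
    show _ = κ * κ' * ep N (-1) * N ^ 1 * _
    rw [Finset.mul_sum, Finset.mul_sum]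
    refine Finset.sum_congr rfl fun X _ => ?_
    rw [cls_H hp, stp_H hp]
    by_cases hn : n1 (zz X) + n2 (zz X) = N - 1
    swap
    · rw [if_neg hn, if_neg (fun h => hn h.1)]; ring
    have hsum := n12 (zz X)
    rw [hn] at hsum
    beta_reduce
    generalize hq0 : cor (zz X) 0 = q0 at hsum ⊢
    generalize hq1 : cor (zz X) 1 = q1 at hsum ⊢
    generalize hq2 : cor (zz X) 2 = q2 at hsum ⊢
    generalize hq3 : cor (zz X) 3 = q3 at hsum ⊢
    rw [if_pos hn]
    have b1 : (lab s G₁ ++ [u - x]) ++ (u - x - g - q3) :: (u - x - g + 1 + q0 - N + q1) ::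
        (u - x - g + 1 + q0 - N) :: (str (u - x - g) (y :: r)).map (· + 1) =
        lab s G₁ ++ (u - x) :: (u - x - g - q3) :: ((u - x - g + 1 + q0 - N + q1) ::
        (u - x - g + 1 + q0 - N) :: (str (u - x - g) (y :: r)).map (· + 1)) := by simp
    rw [b1, hcap (lab s G₁) _ (u - x) (u - x - g - q3) (by simp [lab_length, hp]) (by
        rw [List.length_cons, List.length_cons, List.length_map, str_length, hr]; omega) l
        (by omega)]
    have hiff2 : ((N : ℤ) ∣ u - x - g - q3 - (u - x) - 1) ↔ (N : ℤ) ∣ g + q3 + 1 := by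
      rw [← Int.dvd_neg]
      have : -(u - x - g - q3 - (u - x) - 1) = g + q3 + 1 := by ring
      rw [this]
    by_cases hd2 : (N : ℤ) ∣ g + q3 + 1
    swap
    · rw [if_neg (fun h => hd2 (hiff2.mp h)), if_neg (fun h => hd2 (h.2 _ (by simp)))]; ring
    rw [if_pos (hiff2.mpr hd2), if_pos ⟨hn, by
      intro c hc
      rw [List.mem_singleton] at hc
      rw [hc]; exact hd2⟩]
    obtain ⟨c, hc⟩ := hd2
    have e1 : u - x - g - q3 - (u - x) - 1 = N * (-c) := by linarith
    rw [hc, e1, Int.mul_ediv_cancel_left _ hN0, Int.mul_ediv_cancel_left _ hN0]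
    rw [str_append, ← hu, str_cons, str_cons, str_head]
    have a2 : ((str (u - x - g) (y :: r)).map (· + 1)).map (· - 1) =
        (str (u - (x + q2) - q1 - q0) (y :: r)).map (· + N * (-(c - 1))) := by
      rw [List.map_map, ← str_add]
      have : ((fun t : ℤ => t - 1) ∘ fun t => t + 1) = id := by funext t; simp
      rw [this, List.map_id]
      congr 1; linarith
    have a3 : u - x - g + 1 + q0 - N + q1 - 1 = (u - (x + q2)) + N * (-c) := by linarith
    have a4 : u - x - g + 1 + q0 - N - 1 = (u - (x + q2) - q1) + N * (-c) := by linarith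
    rw [List.map_cons, List.map_cons, a2, a3, a4]
    have a5 := per2 hP hN (lab s G₁) [] ((str (u - (x + q2) - q1 - q0) (y :: r)).map
      (· + N * (-(c - 1)))) (u - (x + q2)) (u - (x + q2) - q1) (-c) l
    rw [List.nil_append, List.nil_append] at a5
    rw [a5]
    have a6 : lab s G₁ ++ (u - (x + q2)) :: (u - (x + q2) - q1) ::
        (str (u - (x + q2) - q1 - q0) (y :: r)).map (· + N * (-(c - 1))) =
        (lab s G₁ ++ [u - (x + q2), u - (x + q2) - q1]) ++
        (str (u - (x + q2) - q1 - q0) (y :: r)).map (· + N * (-(c - 1))) := by simp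
    have a7 : (lab s G₁ ++ [u - (x + q2), u - (x + q2) - q1]) ++
        str (u - (x + q2) - q1 - q0) (y :: r) = lab s G₁ ++ (u - (x + q2)) ::
        (u - (x + q2) - q1) :: str (u - (x + q2) - q1 - q0) (y :: r) := by simp
    rw [a6, per_map hP hN, str_length, a7]
    have s1 : ep N (-c) = ep N (-1) * ep N (-(c - 1)) := by rw [← ep_add]; congr 1; ring
    rw [s1]
    ring

end Pool.Agent.Q224.FAL
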