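import Pool.Agent.Q99.FAL.Stm4

/-!
Project FAL of helper99: the volume conjecture for fully augmented links (job FAL-VC), by helper224
-/

set_option autoImplicit false

namespace Pool.Agent.Q224.FAL

open Finset Filter Topology
open Pool.Agent.W715.VC (rt)
open Pool.Agent.W709.QAT (Piece run)
open Pool.Agent.Q191.LB (sg)
open Pool.Agent.Q99.FAL

theorem fun_zero {N : ℕ} (h : 0 < N) :
    (fun l : List (Fin N) => if l.map (fun x => (x : ℕ)) = [0] then (1 : ℂ) else 0) =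
      fun l => if l = [⟨0, h⟩] then 1 else 0 := by
  funext l
  have hiff : l.map (fun x => (x : ℕ)) = [0] ↔ l = [⟨0, h⟩] := by
    rcases l with _ | ⟨a, _ | ⟨b, r⟩⟩
    · simp
    · simp [Fin.ext_iff]
    · simp
  by_cases hc : l = [⟨0, h⟩]
  · rw [if_pos hc, if_pos (hiff.mpr hc)]
  · rw [if_neg hc, if_neg (fun h' => hc (hiff.mp h'))]

theorem pow_id {N : ℕ} (h : 0 < N) {c d v : ℕ} (hcd : 2 * c + d = v + 3) :
    (N : ℝ) ^ c / (N * √N) = √N ^ v / √N ^ d := by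
  have hN : (0 : ℝ) < N := by exact_mod_cast h
  have hs : (0 : ℝ) < √N := Real.sqrt_pos.mpr hN
  have h2 : √(N : ℝ) ^ 2 = N := Real.sq_sqrt hN.le
  rw [div_eq_div_iff (by positivity) (by positivity)]
  calc (N : ℝ) ^ c * √N ^ d = √N ^ (2 * c + d) := by rw [pow_add, pow_mul, h2]
    _ = √N ^ (v + 3) := by rw [hcd]
    _ = √N ^ v * (√N ^ 2 * √N) := by rw [pow_add]; ring
    _ = √N ^ v * (N * √N) := by rw [h2]

theorem task_VC : S_VC := by
  intro hJ hG hTR hZ hGD hSO hOZ hSUR hNC hSP hDIM hCN hUNR hNET hT1 hT2 hGI hLB hMAX hCR hNB hNL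
    D hV hP hD ⟨p, hp⟩
  obtain ⟨X, hgood, hAng, hZ', hdim⟩ := hGD hSO hOZ hSUR hNC hSP hDIM hCN hUNR D hV hP hD p hp
  obtain ⟨z, hz, hlim⟩ := hNET hT1 hT2 hGI hLB hMAX hCR hNB hNL D.length X p (ws D) hgood
  refine ⟨‖z‖, norm_pos_iff.mpr hz, ?_⟩
  refine hlim.norm.congr' ?_
  filter_upwards [eventually_gt_atTop 0] with N hN
  obtain ⟨θ, hθ, hrun⟩ := hJ hG hTR hZ N hN D hV
  rw [fun_zero hN, dif_pos hN, hrun, hZ' N hN, hAng]
  have hid := pow_id hN hdim
  have hNr : (0 : ℝ) < N := by exact_mod_cast hN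
  have hs : (0 : ℝ) < √N := Real.sqrt_pos.mpr hNr
  rw [norm_mul, norm_mul, norm_mul, hθ, one_mul, norm_pow, Complex.norm_natCast,
    Complex.norm_real, Real.norm_of_nonneg (by positivity), ← hid, Real.exp_neg]
  have he := Real.exp_pos (N * sSup (fV '' AS D))
  field_simp

end Pool.Agent.Q224.FAL
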